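import Pool.Agent.Helper73.RFn.GoalsH

/-!
# Project RFn, packet DIA: upper diameter bound (general dimension)
-/

set_option autoImplicit false

open Finset Pool.Agent.Helper47.RFn Pool.Agent.Helper73.RFn

namespace Pool.Agent.Helper79.RFn.DIA

variable {n : ℕ}

theorem smFam_mono {I J : Set ℝ} (h : J ⊆ I) {f : ℝ → EE n → ℝ} (hf : SmFam I f) : SmFam J f :=
  ⟨fun t ht => hf.sm t (h ht), fun w => (hf.cont w).mono (Set.prod_mono h subset_rfl)⟩

theorem smFam1_mono {I J : Set ℝ} (h : J ⊆ I) {f f' : ℝ → EE n → ℝ} (hf : SmFam1 I f f') :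
    SmFam1 J f f' :=
  ⟨smFam_mono h hf.fam, smFam_mono h hf.fam', fun w x hx t ht => (hf.der w x hx t (h ht)).mono h⟩

theorem fflow_mono {I J : Set ℝ} (h : J ⊆ I) {A θ : ℝ → MF n} (hf : FFlow I A θ) : FFlow J A θ :=
  ⟨fun t ht => hf.inv t (h ht), fun t ht => hf.nA t (h ht), fun a i => smFam1_mono h (hf.flA a i),
    fun i a => smFam1_mono h (hf.flt i a)⟩

theorem ed_congr {f g : EE n → ℝ} (h : ∀ x, x ≠ 0 → f x = g x) (i : Fin (n + 1)) {x : EE n}
    (hx : x ≠ 0) : ed i f x = ed i g x := by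
  unfold ed pd
  have : f =ᶠ[nhds x] g := by
    filter_upwards [isOpen_compl_singleton.mem_nhds (show x ∈ ({0}ᶜ : Set (EE n)) from hx)] with y hy
    exact h y hy
  rw [this.fderiv_eq]

theorem ggf_congr {A : MF n} {f h : EE n → ℝ} (hfh : ∀ x, x ≠ 0 → f x = h x) {x : EE n}
    (hx : x ≠ 0) : ggf A f f x = ggf A h h x := by
  unfold ggf Fdc
  refine Finset.sum_congr rfl fun a _ => ?_
  congr 1 <;>
  · refine Finset.sum_congr rfl fun i _ => ?_
    rw [ed_congr hfh i hx]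

/-- the time integral estimate -/
theorem diff_le {τ C : ℝ} (hτ : 0 < τ) (hC : 0 ≤ C) {φ φ' : ℝ → ℝ}
    (hd : ∀ t ∈ Set.Icc 0 τ, HasDerivWithinAt φ (φ' t) (Set.Icc 0 τ) t)
    (hb : ∀ t, 0 < t → t < τ → t * φ' t ^ 2 ≤ C ^ 2) :
    φ 0 ≤ 2 * C * Real.sqrt τ + φ τ := by
  have hmono : MonotoneOn (fun t => 2 * C * Real.sqrt t + φ t) (Set.Icc 0 τ) := by
    refine monotoneOn_of_deriv_nonneg (convex_Icc 0 τ) ?_ ?_ ?_
    · exact (Real.continuous_sqrt.continuousOn.const_smul (2 * C)).add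
        (fun t ht => (hd t ht).continuousWithinAt)
    · intro t ht
      rw [interior_Icc] at ht
      have h1 := (hd t ⟨ht.1.le, ht.2.le⟩).hasDerivAt (Icc_mem_nhds ht.1 ht.2)
      exact (((Real.hasDerivAt_sqrt ht.1.ne').const_mul (2 * C)).add h1).differentiableAt
        |>.differentiableWithinAt
    · intro t ht
      rw [interior_Icc] at ht
      have h1 := (hd t ⟨ht.1.le, ht.2.le⟩).hasDerivAt (Icc_mem_nhds ht.1 ht.2)
      have h2 := ((Real.hasDerivAt_sqrt ht.1.ne').const_mul (2 * C)).add h1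
      have h3 : deriv (fun t => 2 * C * Real.sqrt t + φ t) t
          = 2 * C * (1 / (2 * Real.sqrt t)) + φ' t := h2.deriv
      rw [h3]
      have hs : 0 < Real.sqrt t := Real.sqrt_pos.2 ht.1
      have h4 : (Real.sqrt t * φ' t) ^ 2 ≤ C ^ 2 := by
        rw [mul_pow, Real.sq_sqrt ht.1.le]; exact hb t ht.1 ht.2
      have h5 : -C ≤ Real.sqrt t * φ' t := (abs_le.1 (abs_le_of_sq_le_sq h4 hC)).1
      have h6 : 2 * C * (1 / (2 * Real.sqrt t)) + φ' t
          = (C + Real.sqrt t * φ' t) / Real.sqrt t := by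
        field_simp
      rw [h6]
      exact div_nonneg (by linarith) hs.le
  have := hmono (Set.left_mem_Icc.2 hτ.le) (Set.right_mem_Icc.2 hτ.le) hτ.le
  simpa using this

theorem diaP : DiaPStmt := by
  intro hHEC hLIP hSMO hFHM hDBD hHeat n C σ hn hC1 hσ hσ1
  obtain ⟨Bc, hBc, hHEC⟩ := hHEC n C C hn (by linarith) (by linarith)
  obtain ⟨hFrmF, hFloF⟩ := hFHM n
  have hn1 : 1 ≤ n := by omega
  have hn2 : 2 ≤ n := by omega
  set K := Real.sqrt Bc with hKdef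
  have hK0 : 0 ≤ K := Real.sqrt_nonneg _
  have hK2 : K ^ 2 = Bc := Real.sq_sqrt hBc.le
  refine ⟨C + 4 * K, by linarith, ?_⟩
  intro T l0 τ A θ hl0 hF hGood hLast
  have hτ : 0 < τ := hLast.pos.1
  have hτT : τ < T := hLast.pos.2
  have hF1 : FFlow (Set.Icc 0 τ) A θ :=
    fflow_mono (fun t ht => show t ∈ Set.Ico 0 T from ⟨ht.1, ht.2.trans_lt hτT⟩) hF
  have hF2 : FFlow (Set.Ico 0 τ) A θ :=
    fflow_mono (fun t ht => show t ∈ Set.Icc 0 τ from ⟨ht.1, ht.2.le⟩) hF1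
  obtain ⟨hfrm, -, -, -, -, -, -, hgfam⟩ := hFloF (Set.Icc 0 τ) A θ hF1
  have hform : ∀ t ∈ Set.Icc 0 τ, ∀ f : EE n → ℝ, Sm f → ∀ x, ggf (A t) f f x =
      ∑ i, ∑ j, (gOf (θ t) x)⁻¹ i j * ed i f x * ed j f x := by
    intro t ht f hf x
    obtain ⟨-, -, -, -, -, -, -, -, -, -, hg, -⟩ := hFrmF (A t) (θ t) (hfrm t ht)
    exact (hg f f hf hf).2 x
  have h0I : (0 : ℝ) ∈ Set.Icc 0 τ := Set.left_mem_Icc.2 hτ.le
  have hτI : τ ∈ Set.Icc 0 τ := Set.right_mem_Icc.2 hτ.le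
  -- the main estimate for smooth functions
  have key : ∀ f : EE n → ℝ, Sm f →
      (∀ x, x ≠ 0 → ∑ i, ∑ j, (gOf (θ 0) x)⁻¹ i j * ed i f x * ed j f x ≤ 1) →
      ∀ x y : EE n, ‖x‖ = 1 → ‖y‖ = 1 → f x - f y ≤ (C + 4 * K) * Real.sqrt τ := by
    intro f hf hgf x y hx hy
    obtain ⟨u, hu, hu0⟩ := hHeat n hn2 τ A θ hτ hF1 f hf
    have hu2 : HeatOn (Set.Ico 0 τ) A θ u :=
      smFam1_mono (fun t ht => show t ∈ Set.Icc 0 τ from ⟨ht.1, ht.2.le⟩) hu
    have hH := hHEC τ l0 A θ u hτ hl0 hF2 (fun t ht0 ht1 x hx =>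
      ⟨(hGood.p1 t ht0.le (ht1.trans hτT) x hx).1, (hGood.p1 t ht0.le (ht1.trans hτT) x hx).2,
        hLast.bef t ht0 ht1.le x hx⟩) hu2 (fun x hx => by
          rw [ggf_congr hu0 hx, hform 0 h0I f hf x]; exact hgf x hx)
    have hne : ∀ z : EE n, ‖z‖ = 1 → z ≠ 0 := by
      intro z hz h0; rw [h0] at hz; simp at hz
    -- time estimate
    have hder : ∀ z : EE n, z ≠ 0 → ∀ t ∈ Set.Icc 0 τ,
        HasDerivWithinAt (fun s => u s z) (Lapf (A t) (θ t) (u t) z) (Set.Icc 0 τ) t :=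
      fun z hz t ht => hu.der [] z hz t ht
    have e1 : f x ≤ 2 * K * Real.sqrt τ + u τ x := by
      have := diff_le (φ := fun s => u s x) (φ' := fun t => Lapf (A t) (θ t) (u t) x) hτ hK0
        (hder x (hne x hx)) (fun t h1 h2 => by rw [hK2]; exact (hH t h1 h2 x (hne x hx)).2)
      simpa [hu0 x (hne x hx)] using this
    have e2 : -f y ≤ 2 * K * Real.sqrt τ + -u τ y := by
      have := diff_le (φ := fun s => -u s y) (φ' := fun t => -Lapf (A t) (θ t) (u t) y) hτ hK0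
        (fun t ht => (hder y (hne y hy) t ht).neg)
        (fun t h1 h2 => by rw [hK2, neg_sq]; exact (hH t h1 h2 y (hne y hy)).2)
      simpa [hu0 y (hne y hy)] using this
    -- gradient at time `τ`
    have hgrad : ∀ z, z ≠ 0 → ∑ i, ∑ j, (gOf (θ τ) z)⁻¹ i j * ed i (u τ) z * ed j (u τ) z
        ≤ (1 : ℝ) ^ 2 := by
      intro z hz
      rw [one_pow, ← hform τ hτI (u τ) (hu.fam.sm τ hτI) z]
      have hcl : closure (Set.Ioo (0 : ℝ) τ) = Set.Icc 0 τ := closure_Ioo hτ.ne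
      have hcont : ContinuousOn (fun t => ggf (A t) (u t) (u t) z) (Set.Icc 0 τ) := by
        have h1 := (hgfam u u hu.fam hu.fam).1.cont []
        exact h1.comp (f := fun t : ℝ => (t, z)) (by fun_prop)
          (fun t ht => ⟨ht, hz⟩)
      refine le_on_closure (s := Set.Ioo (0 : ℝ) τ) (f := fun t => ggf (A t) (u t) (u t) z)
        (g := fun _ => (1 : ℝ)) (fun t ht => (hH t ht.1 ht.2 z hz).1) (by rw [hcl]; exact hcont)
        (by fun_prop) (x := τ) (by rw [hcl]; exact hτI)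
    have e3 := hLIP n (gOf (θ τ)) (u τ) 1 hn1 (hFrmF (A τ) (θ τ) (hfrm τ hτI)).1
      (hu.fam.sm τ hτI) zero_le_one hgrad x y hx hy
    have e4 := (abs_le.1 e3).2
    have e5 := hLast.dis x y hx hy
    linarith
  -- conclusion
  have hm := (hFrmF (A 0) (θ 0) (hfrm 0 h0I)).1
  obtain ⟨-, -, -, -, -, hself, -, -, -⟩ := hDBD n (gOf (θ 0)) hn1 hm
  have hunit : ‖(EuclideanSpace.single (0 : Fin (n + 1)) (1 : ℝ) : EE n)‖ = 1 := by simp
  unfold gdiam
  refine csSup_le ⟨_, EuclideanSpace.single (0 : Fin (n + 1)) (1 : ℝ),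
    EuclideanSpace.single (0 : Fin (n + 1)) (1 : ℝ), hunit, hunit, rfl⟩ ?_
  rintro r ⟨x, y, hx, hy, rfl⟩
  refine le_of_forall_pos_le_add fun ε hε => ?_
  obtain ⟨f, hf, hgf, hfd⟩ := hSMO n (gOf (θ 0)) x (ε / 2) hn1 hm hx (by positivity)
  have h1 := key f hf hgf y x hy hx
  have h2 := abs_le.1 (hfd y hy)
  have h3 := abs_le.1 (hfd x hx)
  have h4 := hself x hx
  linarith [h2.1, h3.2]

end Pool.Agent.Helper79.RFn.DIA
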