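import Pool.Agent.Helper47.RFn.Alg

/-!
# Project RFn, packet SA: start of the chain
-/

namespace Pool.Agent.Helper47.RFn

open Finset

lemma sa_rq_two {n : ℕ} (A : M2 n) (i j : Fin n) (s : ℝ) :
    rq A (fun k => (if k = i then 1 else 0) + s * (if k = j then 1 else 0))
      = A i i + s * A i j + s * A j i + s ^ 2 * A j j := by
  unfold rq
  simp only [mul_add, add_mul, Finset.sum_add_distrib, mul_ite, mul_one, mul_zero, ite_mul,
    zero_mul, Finset.sum_ite_eq', Finset.mem_univ, if_true]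
  ring

lemma sa_entry {n : ℕ} (A : M2 n) (hs : A.IsSymm) (h0 : ∀ v, 0 ≤ rq A v) (i j : Fin n) :
    |A i j| ≤ ∑ k, A k k := by
  have hd : ∀ k, 0 ≤ A k k := by
    intro k
    have h := h0 (fun l => (if l = k then 1 else 0) + 0 * (if l = k then 1 else 0))
    rw [sa_rq_two] at h
    linarith
  have hle : ∀ k, A k k ≤ ∑ k, A k k := fun k =>
    Finset.single_le_sum (f := fun k => A k k) (fun k _ => hd k) (Finset.mem_univ k)
  have hsym : A j i = A i j := hs.apply i j
  have h1 := h0 (fun k => (if k = i then 1 else 0) + 1 * (if k = j then 1 else 0))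
  have h2 := h0 (fun k => (if k = i then 1 else 0) + (-1) * (if k = j then 1 else 0))
  rw [sa_rq_two] at h1 h2
  rw [abs_le]
  constructor
  · linarith [hle i, hle j]
  · linarith [hle i, hle j]

lemma sa_rq_le {n : ℕ} (A : M2 n) (hs : A.IsSymm) (h0 : ∀ v, 0 ≤ rq A v) (v : Fin n → ℝ) :
    rq A v ≤ n * (∑ k, A k k) * nrm v := by
  have h1 : ∀ i j, A i j * v i * v j ≤ (∑ k, A k k) * ((v i ^ 2 + v j ^ 2) / 2) := by
    intro i j
    have h2 := sa_entry A hs h0 i j
    have h3 : A i j * v i * v j ≤ |A i j| * ((v i ^ 2 + v j ^ 2) / 2) := by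
      have h4 : A i j * v i * v j ≤ |A i j| * |v i * v j| := by
        rw [← abs_mul, mul_assoc]; exact le_abs_self _
      have h5 : |v i * v j| ≤ (v i ^ 2 + v j ^ 2) / 2 := by
        rw [abs_le]; constructor <;> nlinarith [sq_nonneg (v i + v j), sq_nonneg (v i - v j)]
      exact h4.trans (mul_le_mul_of_nonneg_left h5 (abs_nonneg _))
    exact h3.trans (mul_le_mul_of_nonneg_right h2 (by positivity))
  unfold rq nrm
  calc ∑ i, ∑ j, A i j * v i * v j
      ≤ ∑ i : Fin n, ∑ j : Fin n, (∑ k, A k k) * ((v i ^ 2 + v j ^ 2) / 2) :=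
        Finset.sum_le_sum fun i _ => Finset.sum_le_sum fun j _ => h1 i j
    _ = n * (∑ k, A k k) * ∑ i, v i ^ 2 := by
        simp only [← Finset.mul_sum, ← Finset.sum_div, Finset.sum_add_distrib, Finset.sum_const,
          Finset.card_univ, Fintype.card_fin, nsmul_eq_mul]
        ring

theorem goal_SA (hBS : Goal_BS) (hLI : Goal_LI) (hLN : Goal_LN) (hWQ : Goal_WQ)
    (hCL : Goal_CL) : Goal_SA := by
  intro n hn δ hδ hδ1
  have hn4 : (4 : ℝ) ≤ n := by exact_mod_cast hn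
  set k : ℝ := (4 * δ - 1) / (3 * ((n : ℝ) - 1)) with hk
  have hk0 : 0 < k := div_pos (by linarith) (by linarith)
  have hk1 : k ≤ 1 / 3 := by
    rw [hk, div_le_div_iff₀ (by linarith) (by norm_num)]
    linarith
  set b : ℝ := k / (16 * (n : ℝ) ^ 3) with hb
  have hn3 : (0 : ℝ) < (n : ℝ) ^ 3 := by positivity
  have hb0 : 0 < b := by positivity
  have hbn3 : b * (n : ℝ) ^ 3 = k / 16 := by
    rw [hb]; field_simp
  have hn2 : (0 : ℝ) < (n : ℝ) ^ 2 := by positivity
  -- consequences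
  have hbn2 : b * (n : ℝ) ^ 2 ≤ k / 64 := by
    have h1 : b * (n : ℝ) ^ 3 = (b * (n : ℝ) ^ 2) * n := by ring
    have h2 : (b * (n : ℝ) ^ 2) * 4 ≤ (b * (n : ℝ) ^ 2) * n :=
      mul_le_mul_of_nonneg_left hn4 (by positivity)
    linarith
  have hbn : b * (n : ℝ) ≤ k / 256 := by
    have h1 : b * (n : ℝ) ^ 2 = (b * (n : ℝ)) * n := by ring
    have h2 : (b * (n : ℝ)) * 4 ≤ (b * (n : ℝ)) * n :=
      mul_le_mul_of_nonneg_left hn4 (by positivity)
    linarith
  have hb1 : b ≤ k / 1024 := by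
    have h2 : b * 4 ≤ b * n := mul_le_mul_of_nonneg_left hn4 hb0.le
    linarith
  have hb2 : b ≤ 1 / 2 := by linarith
  refine ⟨b, hb0, hb2, k / 4, by positivity, ?_⟩
  intro R hR hP
  obtain ⟨hlam, hRic, hqf⟩ := hBS n hn δ R hδ hδ1 hR hP
  obtain ⟨qadd, qsmul, Radd, Rsmul, ladd, lsmul, Rw, -, RI, -, tr0, rqadd, rqsmul, rq1⟩ := hLN n
  set a : ℝ := aF n b with ha
  have hden : (0 : ℝ) < 2 + 2 * ((n : ℝ) - 2) * b ^ 2 := by
    have : 0 ≤ ((n : ℝ) - 2) * b ^ 2 := mul_nonneg (by linarith) (sq_nonneg _)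
    linarith
  have ha0 : 0 ≤ a := by
    rw [ha, aF]
    apply div_nonneg _ hden.le
    have : 0 ≤ ((n : ℝ) - 2) * b ^ 2 := mul_nonneg (by linarith) (sq_nonneg _)
    linarith
  have ha2 : a ≤ 2 * b := by
    rw [ha, aF, div_le_iff₀ hden]
    have h1 : ((n : ℝ) - 2) * b ^ 2 ≤ 2 * b := by nlinarith
    have h2 : 0 ≤ b * (((n : ℝ) - 2) * b ^ 2) :=
      mul_nonneg hb0.le (mul_nonneg (by linarith) (sq_nonneg _))
    nlinarith
  -- denominators
  set N : ℝ := 1 + 2 * ((n : ℝ) - 1) * a with hN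
  have hN1 : 1 ≤ N := by
    have : 0 ≤ ((n : ℝ) - 1) * a := mul_nonneg (by linarith) ha0
    rw [hN]; linarith
  set M : ℝ := 1 + ((n : ℝ) - 2) * b with hM
  have hM1 : 1 ≤ M := by
    have : 0 ≤ ((n : ℝ) - 2) * b := mul_nonneg (by linarith) hb0.le
    rw [hM]; linarith
  have hN0 : 0 < N := by linarith
  have hM0 : 0 < M := by linarith
  have hS : elli a b R = R + (-(2 * a / N * lam R)) • Id4 n + (-(2 * b / M)) • wdg (Ric0 R) 1 := by
    rw [elli, neg_smul, neg_smul, ← sub_eq_add_neg, ← sub_eq_add_neg]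
  have hx1 : 2 * a / N ≤ 2 * a := div_le_self (by linarith) hN1
  have hx0 : 0 ≤ 2 * a / N := div_nonneg (by linarith) hN0.le
  have hy1 : 2 * b / M ≤ 2 * b := div_le_self (by linarith) hM1
  have hy0 : 0 ≤ 2 * b / M := div_nonneg (by linarith) hM0.le
  obtain ⟨hsR, hsR0⟩ := (hCL n).2.2.2.2.2.2.1 R hR
  -- bounds of Ric
  have hnrm : ∀ v : Fin n → ℝ, 0 ≤ nrm v := fun v => Finset.sum_nonneg fun i _ => sq_nonneg _
  have hRic0 : ∀ v, 0 ≤ rq (Ric R) v := by
    intro v
    refine le_trans ?_ (hRic v)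
    exact mul_nonneg (mul_nonneg (by linarith) hlam.le) (hnrm v)
  have htr : ∑ i, Ric R i i = n * lam R := by
    rw [lam]
    field_simp
  have hRicU : ∀ v, rq (Ric R) v ≤ (n : ℝ) ^ 2 * lam R * nrm v := by
    intro v
    have h := sa_rq_le (Ric R) hsR hRic0 v
    rw [htr] at h
    calc rq (Ric R) v ≤ _ := h
      _ = _ := by ring
  have hRic0e : ∀ v, rq (Ric0 R) v = rq (Ric R) v - lam R * nrm v := by
    intro v
    have e : Ric0 R = Ric R + (-(lam R)) • (1 : M2 n) := by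
      rw [Ric0, neg_smul, ← sub_eq_add_neg]
    rw [e, rqadd, rqsmul, rq1]
    ring
  have hA1 : ∀ v, rq (Ric0 R) v ≤ ((n : ℝ) ^ 2 * lam R) * nrm v := by
    intro v
    rw [hRic0e]
    have := mul_nonneg hlam.le (hnrm v)
    linarith [hRicU v]
  have hA2 : ∀ v, (-lam R) * nrm v ≤ rq (Ric0 R) v := by
    intro v
    rw [hRic0e]
    linarith [hRic0 v]
  refine ⟨hlam, ?_, ?_⟩
  · intro z w
    obtain ⟨hI0, -, hWU⟩ := hWQ n (Ric0 R) (-lam R) ((n : ℝ) ^ 2 * lam R) hsR0 hA2 hA1 z w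
    have h1 := hqf z w
    rw [hS, qadd, qadd, qsmul, qsmul]
    have hLI0 : 0 ≤ lam R * qf (Id4 n) z w := mul_nonneg hlam.le hI0
    have h2 : 2 * a / N * lam R * qf (Id4 n) z w ≤ (4 * b) * (lam R * qf (Id4 n) z w) := by
      rw [mul_assoc]
      exact mul_le_mul_of_nonneg_right (by linarith) hLI0
    have h3 : 2 * b / M * qf (wdg (Ric0 R) 1) z w
        ≤ (2 * (b * (n : ℝ) ^ 2)) * (lam R * qf (Id4 n) z w) := by
      calc 2 * b / M * qf (wdg (Ric0 R) 1) z w
          ≤ 2 * b / M * ((n : ℝ) ^ 2 * lam R * qf (Id4 n) z w) :=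
            mul_le_mul_of_nonneg_left hWU hy0
        _ ≤ 2 * b * ((n : ℝ) ^ 2 * lam R * qf (Id4 n) z w) := by
            apply mul_le_mul_of_nonneg_right hy1
            rw [mul_assoc]
            exact mul_nonneg hn2.le hLI0
        _ = _ := by ring
    have h4 : (4 * b) * (lam R * qf (Id4 n) z w) ≤ (k / 256) * (lam R * qf (Id4 n) z w) :=
      mul_le_mul_of_nonneg_right (by linarith) hLI0
    have h5 : (2 * (b * (n : ℝ) ^ 2)) * (lam R * qf (Id4 n) z w)
        ≤ (k / 32) * (lam R * qf (Id4 n) z w) :=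
      mul_le_mul_of_nonneg_right (by linarith) hLI0
    have h6 : 0 ≤ k * (lam R * qf (Id4 n) z w) := mul_nonneg hk0.le hLI0
    have h7 : k * lam R * qf (Id4 n) z w = k * (lam R * qf (Id4 n) z w) := by ring
    rw [h7] at h1
    linarith
  · intro v
    have hLI := hLI n (by omega) a b ha0 hb0.le R
    have hlamS : lam (elli a b R) = lam R / N := hLI.2.2.2.2.1
    have hlS1 : lam (elli a b R) ≤ lam R := by
      rw [hlamS]; exact div_le_self hlam.le hN1
    have hlS0 : 0 ≤ lam (elli a b R) := by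
      rw [hlamS]; exact div_nonneg hlam.le hN0.le
    have hpF0 : 0 ≤ pF n b := by
      rw [pF]
      have : 0 ≤ ((n : ℝ) - 2) * b ^ 2 := mul_nonneg (by linarith) (sq_nonneg _)
      exact div_nonneg this (by linarith)
    have hpF1 : pF n b ≤ k / 256 := by
      have h0 : 0 ≤ ((n : ℝ) - 2) * b ^ 2 := mul_nonneg (by linarith) (sq_nonneg _)
      have h1 : pF n b ≤ ((n : ℝ) - 2) * b ^ 2 := by
        rw [pF]; exact div_le_self h0 (by linarith)
      have h2 : ((n : ℝ) - 2) * b ^ 2 ≤ b * n := by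
        have h3 : ((n : ℝ) - 2) * b ^ 2 = (b * ((n : ℝ) - 2)) * b := by ring
        have h4 : 0 ≤ b * ((n : ℝ) - 2) := mul_nonneg hb0.le (by linarith)
        have h5 : (b * ((n : ℝ) - 2)) * b ≤ (b * ((n : ℝ) - 2)) * 1 :=
          mul_le_mul_of_nonneg_left (by linarith) h4
        linarith
      linarith
    have hp : pF n b * lam (elli a b R) ≤ k / 256 * lam R := by
      calc pF n b * lam (elli a b R) ≤ pF n b * lam R := mul_le_mul_of_nonneg_left hlS1 hpF0
        _ ≤ k / 256 * lam R := mul_le_mul_of_nonneg_right hpF1 hlam.le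
    have hL : 0 ≤ lam R * nrm v := mul_nonneg hlam.le (hnrm v)
    have hRw : Ric (wdg (Ric0 R) 1) = (((n : ℝ) - 2) / 2) • Ric0 R := by
      rw [Rw (Ric0 R) hsR0, tr0 R (by omega)]
      simp
    rw [hS, Radd, Radd, Rsmul, Rsmul, RI, hRw, rqadd, rqadd, rqsmul, rqsmul, rqsmul, rqsmul, rq1,
      ← hS]
    have h1 := hRic v
    have h2 : 2 * a / N * lam R * (((n : ℝ) - 1) * nrm v) ≤ (4 * (b * n)) * (lam R * nrm v) := by
      have e : 2 * a / N * lam R * (((n : ℝ) - 1) * nrm v)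
          = (2 * a / N * ((n : ℝ) - 1)) * (lam R * nrm v) := by ring
      rw [e]
      apply mul_le_mul_of_nonneg_right _ hL
      calc 2 * a / N * ((n : ℝ) - 1) ≤ (4 * b) * n := by
            apply mul_le_mul (by linarith) (by linarith) (by linarith) (by linarith)
        _ = _ := by ring
    have h3 : 2 * b / M * (((n : ℝ) - 2) / 2 * rq (Ric0 R) v)
        ≤ (b * (n : ℝ) ^ 3) * (lam R * nrm v) := by
      have h4 : ((n : ℝ) - 2) / 2 * rq (Ric0 R) v
          ≤ (n / 2) * ((n : ℝ) ^ 2 * lam R * nrm v) := by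
        calc ((n : ℝ) - 2) / 2 * rq (Ric0 R) v
            ≤ ((n : ℝ) - 2) / 2 * ((n : ℝ) ^ 2 * lam R * nrm v) :=
              mul_le_mul_of_nonneg_left (hA1 v) (by linarith)
          _ ≤ _ := by
              apply mul_le_mul_of_nonneg_right (by linarith)
              rw [mul_assoc]; exact mul_nonneg hn2.le hL
      calc 2 * b / M * (((n : ℝ) - 2) / 2 * rq (Ric0 R) v)
          ≤ 2 * b / M * ((n / 2) * ((n : ℝ) ^ 2 * lam R * nrm v)) :=
            mul_le_mul_of_nonneg_left h4 hy0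
        _ ≤ 2 * b * ((n / 2) * ((n : ℝ) ^ 2 * lam R * nrm v)) := by
            apply mul_le_mul_of_nonneg_right hy1
            apply mul_nonneg (by linarith)
            rw [mul_assoc]; exact mul_nonneg hn2.le hL
        _ = _ := by ring
    have h5 : (4 * (b * n)) * (lam R * nrm v) ≤ (k / 64) * (lam R * nrm v) :=
      mul_le_mul_of_nonneg_right (by linarith) hL
    have h6 : (b * (n : ℝ) ^ 3) * (lam R * nrm v) = (k / 16) * (lam R * nrm v) := by rw [hbn3]
    have h7 : (pF n b * lam (elli a b R) + k / 4 * lam R) * nrm v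
        ≤ (k / 256 + k / 4) * (lam R * nrm v) := by
      calc (pF n b * lam (elli a b R) + k / 4 * lam R) * nrm v
          ≤ (k / 256 * lam R + k / 4 * lam R) * nrm v :=
            mul_le_mul_of_nonneg_right (by linarith) (hnrm v)
        _ = _ := by ring
    have h8 : (1 / 4) * (lam R * nrm v) ≤ δ * (lam R * nrm v) :=
      mul_le_mul_of_nonneg_right (by linarith) hL
    have h9 : δ * lam R * nrm v = δ * (lam R * nrm v) := by ring
    rw [h9] at h1
    have h10 : k * (lam R * nrm v) ≤ 1 / 3 * (lam R * nrm v) :=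
      mul_le_mul_of_nonneg_right hk1 hL
    refine h7.trans ?_
    have h11 : 0 ≤ k * (lam R * nrm v) := mul_nonneg hk0.le hL
    linarith

end Pool.Agent.Helper47.RFn
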